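import Pool.Agent.helper81.EP.SpecC

set_option autoImplicit false

open Finset
open scoped Real

noncomputable section

namespace Pool.Agent.EP

theorem CN_div (l i j : ℕ) (hl : l.Prime) :
    #(Nat.gcd j (l ^ i)).divisors = #{i' ∈ range (i + 1) | l ^ i' ∣ j} := by
  symm
  apply Finset.card_bij (fun i' _ => l ^ i')
  · intro k hk
    rw [mem_filter, mem_range] at hk
    rw [Nat.mem_divisors]
    refine ⟨Nat.dvd_gcd hk.2 (pow_dvd_pow l (by omega)), ?_⟩
    have : 0 < l ^ i := pow_pos hl.pos i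
    exact (Nat.gcd_pos_of_pos_right j this).ne'
  · intro a _ b _ h
    exact Nat.pow_right_injective hl.two_le h
  · intro d hd
    rw [Nat.mem_divisors] at hd
    have h1 : d ∣ j := hd.1.trans (Nat.gcd_dvd_left _ _)
    have h2 : d ∣ l ^ i := hd.1.trans (Nat.gcd_dvd_right _ _)
    obtain ⟨k, hk, rfl⟩ := (Nat.dvd_prime_pow hl).1 h2
    refine ⟨k, ?_, rfl⟩
    rw [mem_filter, mem_range]
    exact ⟨by omega, h1⟩

theorem CN : CN_stmt := by
  intro b l i hl
  simp_rw [CN_div l i _ hl, Finset.card_filter]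
  rw [Finset.sum_comm]
  refine Finset.sum_congr rfl fun i' _ => ?_
  unfold NK ws
  rw [Finset.card_filter, Finset.sum_filter]
  symm
  have hsub : range (2 ^ b) ⊆ range (4 ^ b) := by
    intro w hw
    rw [mem_range] at hw ⊢
    exact hw.trans_le (Nat.pow_le_pow_left (by norm_num) b)
  rw [← Finset.sum_subset hsub]
  · refine Finset.sum_congr rfl fun w _ => ?_
    by_cases h1 : w % 2 = 1 ∧ 3 * w ^ 2 < 4 ^ b
    · by_cases h2 : l ^ i' ∣ 4 ^ b - 3 * w ^ 2
      · rw [if_pos ⟨h1.1, h1.2, h2⟩, if_pos h1, if_pos h2]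
      · rw [if_neg (fun h => h2 h.2.2), if_pos h1, if_neg h2]
    · rw [if_neg (fun h => h1 ⟨h.1, h.2.1⟩), if_neg h1]
  · intro w _ hw
    rw [if_neg]
    rintro ⟨_, h⟩
    apply hw
    rw [mem_range]
    have h4 : 4 ^ b = (2 ^ b) ^ 2 := by
      rw [← pow_mul, mul_comm, pow_mul]; norm_num
    rw [h4] at h
    apply lt_of_pow_lt_pow_left₀ 2 (Nat.zero_le _)
    omega

end Pool.Agent.EP
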