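import Pool.Agent.helper81.EP.SpecC

set_option autoImplicit false

open Finset
open scoped Real

noncomputable section

namespace Pool.Agent.EP

theorem CX (hKP : KP_stmt) (hKQ : KQ_stmt) : CX_stmt := by
  intro η hη hη1
  set J : ℕ := ⌈1 / η⌉₊ with hJ
  have hJη : 1 / η ≤ (J : ℝ) := Nat.le_ceil _
  have hJpos : (0 : ℝ) < J := lt_of_lt_of_le (by positivity) hJη
  have hJ1 : 1 ≤ J := by exact_mod_cast hJpos
  have hJinv : 1 / (J : ℝ) ≤ η := by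
    rw [div_le_iff₀ hJpos]
    rw [div_le_iff₀ hη] at hJη
    linarith
  obtain ⟨l, hl, hinj⟩ := hKQ J
  obtain ⟨C, hC⟩ := hKP J l hJ1 hl hinj
  refine ⟨(4 : ℝ) ^ (C + 2), 4096, one_le_pow₀ (by norm_num), ?_⟩
  intro Y hY
  have hYr : (4096 : ℝ) ≤ Y := by exact_mod_cast hY
  have hY0 : (0 : ℝ) < Y := by linarith
  have hY1 : (1 : ℝ) ≤ Y := by linarith
  set x : ℝ := (Y : ℝ) ^ (1 / 3 + 2 * η) with hx
  have hx0 : 0 < x := by positivity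
  have hx16 : 16 ≤ x := by
    have h1 : (4096 : ℝ) ^ (1 / 3 : ℝ) = 16 := by
      rw [show (4096 : ℝ) = 16 ^ (3 : ℝ) by norm_num, ← Real.rpow_mul (by norm_num)]
      norm_num
    calc (16 : ℝ) = (4096 : ℝ) ^ (1 / 3 : ℝ) := h1.symm
      _ ≤ (Y : ℝ) ^ (1 / 3 : ℝ) := Real.rpow_le_rpow (by norm_num) hYr (by norm_num)
      _ ≤ x := Real.rpow_le_rpow_of_exponent_le hY1 (by linarith)
  have hex : ∃ b : ℕ, x ≤ (4 : ℝ) ^ b := by
    obtain ⟨n, hn⟩ := pow_unbounded_of_one_lt x (show (1 : ℝ) < 4 by norm_num)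
    exact ⟨n, hn.le⟩
  classical
  set b₀ := Nat.find hex with hb₀
  have hb1 : x ≤ (4 : ℝ) ^ b₀ := Nat.find_spec hex
  have hb2 : 2 ≤ b₀ := by
    by_contra hcon
    push Not at hcon
    have h1 : (4 : ℝ) ^ b₀ ≤ 4 ^ 1 := pow_le_pow_right₀ (by norm_num) (by omega)
    norm_num at h1
    linarith
  have hb3 : (4 : ℝ) ^ b₀ ≤ 4 * x := by
    have h1 : ¬ x ≤ (4 : ℝ) ^ (b₀ - 1) := Nat.find_min hex (by omega)
    push Not at h1
    have h2 : (4 : ℝ) ^ b₀ = 4 * 4 ^ (b₀ - 1) := by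
      rw [← pow_succ']; congr 1; omega
    rw [h2]; linarith
  obtain ⟨b, k, i, hbb, hbC, hli, hodd⟩ := hC b₀ (by omega)
  have hfl : ((b₀ / J : ℕ) : ℝ) ≤ b₀ * η := by
    calc ((b₀ / J : ℕ) : ℝ) ≤ (b₀ : ℝ) / J := Nat.cast_div_le
      _ = b₀ * (1 / J) := by ring
      _ ≤ b₀ * η := mul_le_mul_of_nonneg_left hJinv (Nat.cast_nonneg _)
  have h4p : (0 : ℝ) < 4 ^ b₀ := by positivity
  have h4fl : (4 : ℝ) ^ (b₀ / J) ≤ ((4 : ℝ) ^ b₀) ^ η := by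
    rw [← Real.rpow_natCast 4 (b₀ / J), ← Real.rpow_natCast 4 b₀, ← Real.rpow_mul (by norm_num)]
    exact Real.rpow_le_rpow_of_exponent_le (by norm_num) hfl
  have h2fl : (2 : ℝ) ^ (b₀ / J) ≤ ((4 : ℝ) ^ b₀) ^ (η / 2) := by
    have e : (4 : ℝ) ^ b₀ = (2 : ℝ) ^ ((2 * b₀ : ℕ) : ℝ) := by
      rw [Real.rpow_natCast, pow_mul]; norm_num
    rw [e, ← Real.rpow_natCast 2 (b₀ / J), ← Real.rpow_mul (by norm_num)]
    apply Real.rpow_le_rpow_of_exponent_le (by norm_num)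
    push_cast
    linarith
  have hlk := hl k
  have hl5 : 5 ≤ l k := by
    have := hlk.1.two_le
    rcases hlk.2 with h | h <;> omega
  refine ⟨b, l k, i, by omega, hlk.1, hl5, hodd, ?_, ?_, ?_⟩
  · exact hb1.trans (pow_le_pow_right₀ (by norm_num) hbb)
  · have h1 : (4 : ℝ) ^ b ≤ 4 ^ (b₀ + b₀ / J + C) := pow_le_pow_right₀ (by norm_num) hbC
    have h2 : ((4 : ℝ) ^ b₀) ^ η ≤ (4 * x) ^ η := Real.rpow_le_rpow h4p.le hb3 hη.le
    have h3 : (4 * x) ^ η = 4 ^ η * x ^ η := Real.mul_rpow (by norm_num) hx0.le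
    have h4 : (4 : ℝ) ^ η ≤ 4 := by
      calc (4 : ℝ) ^ η ≤ 4 ^ (1 : ℝ) := Real.rpow_le_rpow_of_exponent_le (by norm_num) (by linarith)
        _ = 4 := Real.rpow_one 4
    have h5 : x * x ^ η ≤ (Y : ℝ) ^ (1 / 3 + 3 * η) := by
      have e1 : x * x ^ η = x ^ (1 + η) := by rw [Real.rpow_add hx0, Real.rpow_one]
      rw [e1, hx, ← Real.rpow_mul hY0.le]
      apply Real.rpow_le_rpow_of_exponent_le hY1
      nlinarith
    have hxη : 0 < x ^ η := Real.rpow_pos_of_pos hx0 _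
    calc (4 : ℝ) ^ b ≤ 4 ^ (b₀ + b₀ / J + C) := h1
      _ = 4 ^ C * (4 ^ b₀ * 4 ^ (b₀ / J)) := by rw [pow_add, pow_add]; ring
      _ ≤ 4 ^ C * ((4 * x) * (4 * x ^ η)) := by
          apply mul_le_mul_of_nonneg_left _ (by positivity)
          apply mul_le_mul hb3 _ (by positivity) (by positivity)
          calc (4 : ℝ) ^ (b₀ / J) ≤ ((4 : ℝ) ^ b₀) ^ η := h4fl
            _ ≤ (4 * x) ^ η := h2
            _ = 4 ^ η * x ^ η := h3
            _ ≤ 4 * x ^ η := mul_le_mul_of_nonneg_right h4 hxη.le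
      _ = 4 ^ (C + 2) * (x * x ^ η) := by rw [pow_add]; ring
      _ ≤ 4 ^ (C + 2) * (Y : ℝ) ^ (1 / 3 + 3 * η) := mul_le_mul_of_nonneg_left h5 (by positivity)
  · have h1 : (((l k) ^ i : ℕ) : ℝ) ≤ 2 ^ (b₀ / J + C) := by exact_mod_cast hli
    have h2 : ((4 : ℝ) ^ b₀) ^ (η / 2) ≤ (4 * x) ^ (η / 2) :=
      Real.rpow_le_rpow h4p.le hb3 (by positivity)
    have h3 : (4 * x) ^ (η / 2) = 4 ^ (η / 2) * x ^ (η / 2) := Real.mul_rpow (by norm_num) hx0.le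
    have h4 : (4 : ℝ) ^ (η / 2) ≤ 4 := by
      calc (4 : ℝ) ^ (η / 2) ≤ 4 ^ (1 : ℝ) :=
            Real.rpow_le_rpow_of_exponent_le (by norm_num) (by linarith)
        _ = 4 := Real.rpow_one 4
    have h5 : x ^ (η / 2) ≤ (Y : ℝ) ^ (η / 2) := by
      rw [hx, ← Real.rpow_mul hY0.le]
      apply Real.rpow_le_rpow_of_exponent_le hY1
      nlinarith
    have hxη : 0 < x ^ (η / 2) := Real.rpow_pos_of_pos hx0 _
    have h24 : (2 : ℝ) ^ C ≤ 4 ^ C := pow_le_pow_left₀ (by norm_num) (by norm_num) C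
    calc (((l k) ^ i : ℕ) : ℝ) ≤ 2 ^ (b₀ / J + C) := h1
      _ = 2 ^ C * 2 ^ (b₀ / J) := by rw [pow_add]; ring
      _ ≤ 4 ^ C * (4 * (Y : ℝ) ^ (η / 2)) := by
          apply mul_le_mul h24 _ (by positivity) (by positivity)
          calc (2 : ℝ) ^ (b₀ / J) ≤ ((4 : ℝ) ^ b₀) ^ (η / 2) := h2fl
            _ ≤ (4 * x) ^ (η / 2) := h2
            _ = 4 ^ (η / 2) * x ^ (η / 2) := h3
            _ ≤ 4 * (Y : ℝ) ^ (η / 2) := mul_le_mul h4 h5 hxη.le (by norm_num)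
      _ ≤ 4 ^ (C + 2) * (Y : ℝ) ^ (η / 2) := by
          have : 0 ≤ (4 : ℝ) ^ C * (Y : ℝ) ^ (η / 2) := by positivity
          rw [pow_add]
          nlinarith

end Pool.Agent.EP
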